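import Pool.Agent.Y503.RB.Def3

/-!
Project RB, statement PAR: local parametrisations of a surface without interior local maxima of the
norm.
-/

set_option autoImplicit false

namespace Pool.Agent.Y987.RB

open scoped ContDiff RealInnerProductSpace ENNReal Topology
open MeasureTheory Set Metric Filter
open Pool.Agent.Y503.RB

theorem fderiv_q (f : ℂ → ℝ) (z : ℂ) :
    fderiv ℝ (fun w => 1 - f w) z = -fderiv ℝ f z := fderiv_const_sub (1 : ℝ)

theorem fderiv_q2 (f : ℂ → ℝ) (z u v : ℂ) :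
    fderiv ℝ (fderiv ℝ (fun w => 1 - f w)) z u v = -fderiv ℝ (fderiv ℝ f) z u v := by
  have h : fderiv ℝ (fun w => 1 - f w) = -fderiv ℝ f := by
    funext w
    exact fderiv_q f w
  rw [h, fderiv_neg]
  rfl

theorem locmax {X : Type} [TopologicalSpace X] {φ : ℂ → X} {N : X → ℝ} {U : Set ℂ} {F V : Set X}
    (hemb : Topology.IsEmbedding (fun z : U => φ z)) (hV : IsOpen V) (hFV : F ∩ V = φ '' U) {z : ℂ}
    (hz : z ∈ U) (hzV : φ z ∈ V) (h : ∀ᶠ w in 𝓝 z, N (φ w) ≤ N (φ z)) :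
    IsLocalMaxOn N F (φ z) := by
  have hset : {w : U | N (φ w) ≤ N (φ z)} ∈ 𝓝 (⟨z, hz⟩ : U) :=
    continuousAt_subtype_val.preimage_mem_nhds (x := (⟨z, hz⟩ : U)) h
  rw [hemb.nhds_eq_comap] at hset
  obtain ⟨W, hW, hsub⟩ := hset
  have h3 : W ∈ 𝓝[F] (φ z) := mem_nhdsWithin_of_mem_nhds hW
  have h3' : V ∈ 𝓝[F] (φ z) := mem_nhdsWithin_of_mem_nhds (hV.mem_nhds hzV)
  filter_upwards [self_mem_nhdsWithin, h3, h3'] with x hxF hxW hxV
  have h4 : x ∈ φ '' U := by
    rw [← hFV]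
    exact ⟨hxF, hxV⟩
  obtain ⟨w, hw, rfl⟩ := h4
  exact hsub (show (⟨w, hw⟩ : U) ∈ (fun w : U => φ w) ⁻¹' W from hxW)

theorem par_of (hT : St_TYPE) : St_PAR := by
  intro F hF h0 hM p hp
  have hp1 : ‖p‖ ≤ 1 := by
    have := hF.sub hp
    simpa using this
  rcases hp1.lt_or_eq with hlt | heq
  · obtain ⟨φ, U, V, z, hφ, hV, hpV, hFV, hz, hφz, hnd⟩ := hM.morse p hp hlt
    have hmem : ∀ w ∈ U, φ w ∈ F := fun w hw => by
      have : φ w ∈ F ∩ V := by
        rw [hFV]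
        exact mem_image_of_mem φ hw
      exact this.1
    refine ⟨φ, U, V, z, hφ, hV, hpV, ?_, hz, hφz, fun w hw h => h0 (h ▸ hmem w hw), ?_⟩
    · rw [hFV]
      refine (inter_eq_left.2 ?_).symm
      rintro _ ⟨w, hw, rfl⟩
      exact hF.sub (hmem w hw)
    · by_cases hd : fderiv ℝ (fun w => 1 - ‖φ w‖ ^ 2) z = 0
      · right
        refine ⟨hlt, hd, hT _ z ?_ hd ?_ ?_⟩
        · have h1 : ContDiffAt ℝ ∞ φ z := hφ.smooth.contDiffAt (hφ.isOpen.mem_nhds hz)
          exact contDiffAt_const.sub (h1.norm_sq ℝ)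
        · intro u hu
          rw [fderiv_q, neg_eq_zero] at hd
          refine hnd hd u fun v => ?_
          have h2 := hu v
          rw [fderiv_q2, neg_eq_zero] at h2
          exact h2
        · intro hmin
          have hmax : IsLocalMaxOn (fun x => ‖x‖) F p := by
            rw [← hφz]
            refine locmax hφ.emb hV hFV hz (by rw [hφz]; exact hpV) ?_
            filter_upwards [hmin] with w hw
            have h2 : ‖φ w‖ ^ 2 ≤ ‖φ z‖ ^ 2 := by linarith
            exact (pow_le_pow_iff_left₀ (norm_nonneg _) (norm_nonneg _) two_ne_zero).1 h2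
          have h5 := hM.maxima
          rw [Nat.cast_zero, nonpos_iff_eq_zero, encard_eq_zero] at h5
          have h6 : p ∈ {p : E4 | p ∈ F ∧ ‖p‖ < 1 ∧ IsLocalMaxOn (fun x => ‖x‖) F p} :=
            ⟨hp, hlt, hmax⟩
          rw [h5] at h6
          exact h6
      · exact Or.inl hd
  · obtain ⟨φ, U, V, hφ, hV, hpV, hFV⟩ := hF.loc p hp
    have h1 : p ∈ φ '' U ∩ closedBall 0 1 := by
      rw [← hFV]
      exact ⟨hp, hpV⟩
    obtain ⟨⟨z, hz, hφz⟩, -⟩ := h1
    refine ⟨φ, U, V, z, hφ, hV, hpV, hFV, hz, hφz, fun w hw h => h0 ?_, Or.inl ?_⟩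
    · have h2 : φ w ∈ F ∩ V := by
        rw [hFV]
        refine ⟨mem_image_of_mem φ hw, ?_⟩
        rw [h]
        simp
      rw [← h]
      exact h2.1
    · rw [fderiv_q, neg_ne_zero]
      exact hφ.trans z hz (by rw [hφz]; exact heq)

end Pool.Agent.Y987.RB
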